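import Pool.Agent.H20.T4.Stm
import Pool.Agent.H9.TC.F1
import Pool.Agent.H9.TC.F2

/-!
Project TM4 (MP_b6022c_nt), row (G3): for most `n < 2^a` no multiple `t P'(n)`, `1 <= t <= 2^τ`, is
close to `0` modulo `2^va`.
-/

set_option maxHeartbeats 1000000

namespace Pool.Agent.H20.T4

open Finset Pool.Agent.H9.TC Pool.Agent.H20.TM

/-- small values modulo `2^v` from exponential sums -/
theorem g3_small_cnt (v g N : ℕ) (hg : 2 ≤ g) (hgv : g + 1 ≤ v) (x : ℕ → ℤ) (δ : ℝ) (hδ : 0 ≤ δ)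
    (h : ∀ a : ℤ, a ≠ 0 → |a| ≤ 4 ^ g → ‖∑ n ∈ range N, ee ((a : ℝ) * (x n : ℝ) / 2 ^ v)‖ ≤ δ * N) :
    (cnt N (fun n => small v ((2 : ℤ) ^ (v - g)) (x n)) : ℝ) ≤ (5 * (1 / 2) ^ g + 2 * δ) * N := by
  classical
  obtain ⟨W, hW⟩ : ∃ W : ℕ, W = 2 ^ (v - g + 1) := ⟨_, rfl⟩
  have hv1 : 1 ≤ v := by omega
  have hW1 : 1 ≤ W := by rw [hW]; exact Nat.one_le_two_pow
  have hWv : W ≤ 2 ^ (v - 1) := by rw [hW]; exact Nat.pow_le_pow_right (by norm_num) (by omega)
  obtain ⟨-, f1b, f1c, -, f1e, f1f, f1g⟩ := f1 v W hv1 hW1 hWv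
  obtain ⟨f2a, f2b, f2c⟩ := f2 v W hv1 hW1 hWv
  have hWr : (W : ℝ) = 2 ^ v * (2 * (1 / 2) ^ g) := by
    have h1 : (2 : ℝ) ^ v = 2 ^ (v - g) * 2 ^ g := by rw [← pow_add]; congr 1; omega
    rw [hW, h1]
    push_cast
    rw [pow_succ]
    have : (2 : ℝ) ^ g * (1 / 2) ^ g = 1 := by rw [← mul_pow]; norm_num
    linear_combination (-2 * (2 : ℝ) ^ (v - g)) * this
  -- majorant
  have hmaj : (cnt N (fun n => small v ((2 : ℤ) ^ (v - g)) (x n)) : ℝ) ≤
      2 * ∑ n ∈ range N, Fj v W (x n) := by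
    unfold cnt
    rw [card_eq_sum_ones, Nat.cast_sum, sum_filter, mul_sum]
    refine sum_le_sum fun n _ => ?_
    split_ifs with hn
    · have hWz : (W : ℤ) = 2 * 2 ^ (v - g) := by rw [hW]; push_cast; ring
      have key : 1 / 2 ≤ Fj v W (x n) := by
        obtain ⟨s, hs1, hs2⟩ := hn
        exact f1e (x n) s (by rw [hWz]; linarith) hs2
      push_cast
      linarith
    · have := f1b (x n)
      simpa using this
  -- expansion
  have hexp : ((∑ n ∈ range N, Fj v W (x n) : ℝ) : ℂ) =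
      ∑ a ∈ reps v, (Fh v W a : ℂ) * ∑ n ∈ range N, ee ((a : ℝ) * (x n : ℝ) / 2 ^ v) := by
    rw [Complex.ofReal_sum, sum_congr rfl fun n _ => f2a (x n), sum_comm]
    refine sum_congr rfl fun a _ => ?_
    rw [mul_sum]
  have hnorm : ∑ n ∈ range N, Fj v W (x n) ≤
      ∑ a ∈ reps v, Fh v W a * ‖∑ n ∈ range N, ee ((a : ℝ) * (x n : ℝ) / 2 ^ v)‖ := by
    have h0 : 0 ≤ ∑ n ∈ range N, Fj v W (x n) := sum_nonneg fun n _ => f1b _
    have h1 : ∑ n ∈ range N, Fj v W (x n) = ‖((∑ n ∈ range N, Fj v W (x n) : ℝ) : ℂ)‖ := by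
      rw [Complex.norm_real, Real.norm_eq_abs, abs_of_nonneg h0]
    rw [h1, hexp]
    refine (norm_sum_le _ _).trans (sum_le_sum fun a _ => ?_)
    rw [norm_mul, Complex.norm_real, Real.norm_eq_abs, abs_of_nonneg (f1f a)]
  have htriv : ∀ a : ℤ, ‖∑ n ∈ range N, ee ((a : ℝ) * (x n : ℝ) / 2 ^ v)‖ ≤ N := by
    intro a
    refine (norm_sum_le _ _).trans ?_
    rw [sum_congr rfl fun n _ => f2_norm_ee _]
    simp
  have hterm : ∀ a ∈ reps v, Fh v W a * ‖∑ n ∈ range N, ee ((a : ℝ) * (x n : ℝ) / 2 ^ v)‖ ≤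
      (if a = 0 then Fh v W 0 * N else 0) + Fh v W a * (δ * N) +
        (if ((4 ^ g : ℕ) : ℤ) < |a| then Fh v W a * N else 0) := by
    intro a _
    have hN : (0 : ℝ) ≤ N := Nat.cast_nonneg _
    have hF := f1f a
    have t1 : 0 ≤ Fh v W a * (δ * N) := by positivity
    have t2 : 0 ≤ Fh v W a * (N : ℝ) := by positivity
    by_cases h0 : a = 0
    · rw [if_pos h0]
      have h2 := mul_le_mul_of_nonneg_left (htriv a) hF
      rw [h0] at h2 ⊢
      have h4 := f1f 0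
      have h5 : 0 ≤ Fh v W 0 * (δ * N) := by positivity
      split_ifs with h3
      · have : 0 ≤ Fh v W 0 * (N : ℝ) := by positivity
        linarith
      · linarith
    · rw [if_neg h0]
      by_cases h1 : ((4 ^ g : ℕ) : ℤ) < |a|
      · rw [if_pos h1]
        have := mul_le_mul_of_nonneg_left (htriv a) hF
        linarith
      · rw [if_neg h1]
        push Not at h1
        have := mul_le_mul_of_nonneg_left (h a h0 (by push_cast at h1; exact h1)) hF
        linarith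
  have hsum := hnorm.trans (sum_le_sum hterm)
  rw [sum_add_distrib, sum_add_distrib] at hsum
  have hs2 : ∑ a ∈ reps v, Fh v W a * (δ * N) = δ * N := by rw [← sum_mul, f2b, one_mul]
  have hs3 : ∑ a ∈ reps v, (if ((4 ^ g : ℕ) : ℤ) < |a| then Fh v W a * (N : ℝ) else 0) =
      (∑ a ∈ (reps v).filter (fun a => ((4 ^ g : ℕ) : ℤ) < |a|), Fh v W a) * N := by
    rw [← sum_filter, ← sum_mul]
  rw [hs2, hs3] at hsum
  have hz : ∑ a ∈ reps v, (if a = 0 then Fh v W 0 * (N : ℝ) else 0) ≤ Fh v W 0 * N := by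
    rw [sum_ite_eq']
    split_ifs
    · exact le_refl _
    · rw [f1g]; positivity
  have htail := f2c (4 ^ g) (Nat.one_le_pow _ _ (by norm_num))
  have htail2 : (2 : ℝ) ^ v / (2 * W * ((4 ^ g : ℕ) : ℝ)) ≤ 1 / 2 * (1 / 2) ^ g := by
    rw [hWr, div_le_iff₀ (by positivity)]
    push_cast
    have h4 : (4 : ℝ) ^ g = 2 ^ g * 2 ^ g := by rw [← mul_pow]; norm_num
    have h5 : (2 : ℝ) ^ g * (1 / 2) ^ g = 1 := by rw [← mul_pow]; norm_num
    have h6 : 1 / 2 * (1 / 2 : ℝ) ^ g * (2 * (2 ^ v * (2 * (1 / 2) ^ g)) * 4 ^ g) =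
        2 * 2 ^ v * ((2 ^ g * (1 / 2) ^ g) * (2 ^ g * (1 / 2) ^ g)) := by
      rw [h4]; ring
    rw [h6, h5]
    have : (0 : ℝ) < 2 ^ v := by positivity
    linarith
  have h0W : Fh v W 0 = 2 * (1 / 2) ^ g := by
    rw [f1g, hWr]
    field_simp
  have hN : (0 : ℝ) ≤ N := Nat.cast_nonneg _
  have h9 := mul_le_mul_of_nonneg_right (htail.trans htail2) hN
  rw [h0W] at hz hsum
  nlinarith [hmaj, hsum, hz, h9]

theorem g3_union (N T : ℕ) (P : ℕ → ℕ → Prop) :
    (cnt N (fun n => ∃ t : ℕ, 1 ≤ t ∧ t ≤ T ∧ P t n) : ℝ) ≤ ∑ t ∈ Icc 1 T, (cnt N (P t) : ℝ) := by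
  classical
  have : cnt N (fun n => ∃ t : ℕ, 1 ≤ t ∧ t ≤ T ∧ P t n) ≤ ∑ t ∈ Icc 1 T, cnt N (P t) := by
    unfold cnt
    refine (card_le_card (t := (Icc 1 T).biUnion (fun i => (range N).filter (P i))) ?_).trans
      (card_biUnion_le.trans (le_of_eq ?_))
    · intro n hn
      rw [mem_filter] at hn
      obtain ⟨hn1, i, hi1, hi2, hp⟩ := hn
      rw [mem_biUnion]
      exact ⟨i, mem_Icc.2 ⟨hi1, hi2⟩, mem_filter.2 ⟨hn1, hp⟩⟩
    · refine sum_congr rfl fun i _ => ?_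
      congr
  exact_mod_cast this

theorem g3_nn {x : ℝ} (h : |x| ≤ 1 / 2) : |x| ≤ nn x := by
  unfold nn
  by_cases h0 : round x = 0
  · rw [h0]; simp
  · have h1 : (1 : ℝ) ≤ |(round x : ℝ)| := by
      have : (1 : ℤ) ≤ |round x| := Int.one_le_abs h0
      exact_mod_cast this
    have h2 := abs_sub_abs_le_abs_sub (round x : ℝ) x
    rw [abs_sub_comm] at h2
    linarith

theorem g3 (hW3 : W3Stmt) : G3Stmt := by
  intro c hc
  obtain ⟨τ0, hτ0⟩ : ∃ τ0 : ℕ, ∀ τ ≥ τ0, 24 * c * 2 ^ 10 ≤ 2 ^ (3 * τ) := by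
    refine ⟨24 * c * 2 ^ 10, fun τ hτ => ?_⟩
    have h1 : τ < 2 ^ τ := Nat.lt_two_pow_self
    have h2 : 2 ^ τ ≤ 2 ^ (3 * τ) := Nat.pow_le_pow_right (by norm_num) (by omega)
    omega
  refine ⟨9, max τ0 1, fun τ hτ va a hva ha d e f => ?_⟩
  have hτ1 : 1 ≤ τ := (le_max_right _ _).trans hτ
  have hτc := hτ0 τ ((le_max_left _ _).trans hτ)
  obtain ⟨N, hN⟩ : ∃ N : ℕ, N = 2 ^ a := ⟨_, rfl⟩
  have hN1 : 1 ≤ N := by rw [hN]; exact Nat.one_le_two_pow
  have hNr : (N : ℝ) = 2 ^ a := by rw [hN]; push_cast; ring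
  -- one t
  have hone : ∀ t ∈ Icc (1 : ℕ) (2 ^ τ), (cnt N (fun n => small va ((2 : ℤ) ^ (va - 2 * τ))
      ((t : ℤ) * dqua c d e f n)) : ℝ) ≤ 9 * (1 / 2) ^ (2 * τ) * N := by
    intro t ht
    rw [mem_Icc] at ht
    have h1 := g3_small_cnt va (2 * τ) N (by omega) (by omega)
      (fun n => (t : ℤ) * dqua c d e f n) (2 * (1 / 2) ^ (2 * τ)) (by positivity) (by
        intro h h0 hA
        have hpoly : ∀ n ∈ range N, ee ((h : ℝ) * (((t : ℤ) * dqua c d e f n : ℤ) : ℝ) / 2 ^ va) =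
            ee ((4 * c * h * t / 2 ^ va) * (n : ℝ) ^ 3 + (3 * d * h * t / 2 ^ va) * (n : ℝ) ^ 2 +
              (2 * e * h * t / 2 ^ va) * n + f * h * t / 2 ^ va) := by
          intro n _
          congr 1
          unfold dqua
          push_cast
          ring
        rw [sum_congr rfl hpoly]
        have hH := hW3 (4 * c * h * t / 2 ^ va) (3 * d * h * t / 2 ^ va) (2 * e * h * t / 2 ^ va)
          (f * h * t / 2 ^ va) N (2 ^ (8 * τ + 4)) 1 (1 / 2 ^ va) hN1 Nat.one_le_two_pow le_rfl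
          (by positivity) (by
            intro k1 k2 hk1 hk1' hk2 hk2'
            have e1 : (6 : ℝ) * k1 * k2 * (4 * c * h * t / 2 ^ va) =
                ((24 * c * k1 * k2 * t * h : ℤ) : ℝ) / 2 ^ va := by push_cast; ring
            rw [e1]
            have hz : (24 * c * k1 * k2 * t * h : ℤ) ≠ 0 := by
              have : (c : ℤ) ≠ 0 := by omega
              have : (k1 : ℤ) ≠ 0 := by omega
              have : (k2 : ℤ) ≠ 0 := by omega
              have : (t : ℤ) ≠ 0 := by omega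
              positivity
            have hz1 : (1 : ℝ) ≤ |((24 * c * k1 * k2 * t * h : ℤ) : ℝ)| := by
              have := Int.one_le_abs hz
              exact_mod_cast this
            have hup : |(24 * c * k1 * k2 * t * h : ℤ)| * 2 ≤ 2 ^ va := by
              have a1 : |(24 * c * k1 * k2 * t * h : ℤ)| = 24 * c * k1 * k2 * t * |h| := by
                rw [abs_mul, abs_of_nonneg (by positivity)]
              have a2 : (k1 : ℤ) ≤ 2 ^ (8 * τ + 4) := by exact_mod_cast hk1'.le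
              have a3 : (k2 : ℤ) ≤ 2 ^ (8 * τ + 4) := by exact_mod_cast hk2'.le
              have a4 : (t : ℤ) ≤ 2 ^ τ := by exact_mod_cast ht.2
              have a5 : |h| ≤ 2 ^ (4 * τ) := by
                refine hA.trans (le_of_eq ?_)
                rw [show (4 : ℤ) = 2 ^ 2 by norm_num, ← pow_mul]
                congr 1
                ring
              have a6 : (24 * c * 2 ^ 10 : ℤ) ≤ 2 ^ (3 * τ) := by exact_mod_cast hτc
              have a7 : (24 * c * k1 * k2 * t * |h| : ℤ) ≤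
                  24 * c * 2 ^ (8 * τ + 4) * 2 ^ (8 * τ + 4) * 2 ^ τ * 2 ^ (4 * τ) := by
                gcongr
              have a8 : (24 * c * 2 ^ (8 * τ + 4) * 2 ^ (8 * τ + 4) * 2 ^ τ * 2 ^ (4 * τ) : ℤ) * 2 ≤
                  2 ^ (24 * τ) := by
                have : (24 * c * 2 ^ (8 * τ + 4) * 2 ^ (8 * τ + 4) * 2 ^ τ * 2 ^ (4 * τ) : ℤ) * 2 =
                    (24 * c * 2 ^ 9) * 2 ^ (21 * τ) := by
                  have b1 : (2 : ℤ) ^ (8 * τ + 4) = 2 ^ (8 * τ) * 16 := by rw [pow_add]; norm_num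
                  have b2 : (2 : ℤ) ^ (21 * τ) = 2 ^ (8 * τ) * 2 ^ (8 * τ) * 2 ^ τ * 2 ^ (4 * τ) := by
                    rw [← pow_add, ← pow_add, ← pow_add]; congr 1; ring
                  rw [b1, b2]
                  ring
                rw [this]
                calc (24 * c * 2 ^ 9 : ℤ) * 2 ^ (21 * τ) ≤ 2 ^ (3 * τ) * 2 ^ (21 * τ) := by
                      refine mul_le_mul_of_nonneg_right ?_ (by positivity)
                      linarith
                  _ = 2 ^ (24 * τ) := by rw [← pow_add]; congr 1; ring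
              have a9 : (2 : ℤ) ^ (24 * τ) ≤ 2 ^ va := pow_le_pow_right₀ (by norm_num) hva
              rw [a1]
              linarith
            have hupr : |((24 * c * k1 * k2 * t * h : ℤ) : ℝ)| * 2 ≤ 2 ^ va := by
              exact_mod_cast hup
            have h2 : |((24 * c * k1 * k2 * t * h : ℤ) : ℝ) / 2 ^ va| ≤ 1 / 2 := by
              rw [abs_div, abs_of_pos (by positivity : (0 : ℝ) < 2 ^ va), div_le_iff₀ (by positivity)]
              linarith
            refine le_trans ?_ (g3_nn h2)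
            rw [abs_div, abs_of_pos (by positivity : (0 : ℝ) < 2 ^ va)]
            exact div_le_div_of_nonneg_right hz1 (by positivity)) N le_rfl
        -- conclusion
        have hx : (1 / 2 : ℝ) ^ (2 * τ) = 1 / 2 ^ (2 * τ) := by rw [div_pow, one_pow]
        have p1 : 1 / (1 / (2 : ℝ) ^ va * N) ≤ 1 / 2 ^ (10 * τ) := by
          rw [hNr, div_le_div_iff₀ (by positivity) (by positivity)]
          have : (2 : ℝ) ^ (va + 10 * τ) ≤ 2 ^ a := pow_le_pow_right₀ (by norm_num) ha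
          rw [pow_add] at this
          field_simp
          linarith
        have p2 : (6 : ℝ) * (1 : ℕ) / ((2 ^ (8 * τ + 4) : ℕ) : ℝ) = 3 / 8 * (1 / 2 ^ (8 * τ)) := by
          push_cast
          rw [pow_add]
          field_simp
          norm_num
        have p3 : ((2 ^ (8 * τ + 4) : ℕ) : ℝ) / N ≤ 1 / 2 ^ (10 * τ) := by
          rw [hNr, div_le_div_iff₀ (by positivity) (by positivity)]
          push_cast
          rw [one_mul, ← pow_add]
          exact pow_le_pow_right₀ (by norm_num) (by omega)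
        have p4 : 1 / (2 : ℝ) ^ (10 * τ) ≤ 1 / 4 * (1 / 2 ^ (8 * τ)) := by
          have : (4 : ℝ) * 2 ^ (8 * τ) ≤ 2 ^ (10 * τ) := by
            have h4 : (4 : ℝ) = 2 ^ 2 := by norm_num
            rw [h4, ← pow_add]
            exact pow_le_pow_right₀ (by norm_num) (by omega)
          rw [show (1 : ℝ) / 4 * (1 / 2 ^ (8 * τ)) = 1 / (4 * 2 ^ (8 * τ)) by field_simp]
          exact one_div_le_one_div_of_le (by positivity) this
        have p5 : (10 : ℝ) * (1 / (1 / 2 ^ va * N) + 6 * (1 : ℕ) / ((2 ^ (8 * τ + 4) : ℕ) : ℝ) +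
            ((2 ^ (8 * τ + 4) : ℕ) : ℝ) / N) ≤ 16 * (1 / 2 ^ (8 * τ)) := by
          rw [p2]
          have : (0 : ℝ) < 1 / 2 ^ (8 * τ) := by positivity
          linarith
        have p6 : ‖∑ n ∈ range N, ee ((4 * c * h * t / 2 ^ va) * (n : ℝ) ^ 3 +
            (3 * d * h * t / 2 ^ va) * (n : ℝ) ^ 2 + (2 * e * h * t / 2 ^ va) * n +
              f * h * t / 2 ^ va)‖ ^ 4 ≤ (2 * (1 / 2) ^ (2 * τ) * N) ^ 4 := by
          refine hH.trans ((mul_le_mul_of_nonneg_left p5 (by positivity)).trans (le_of_eq ?_))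
          rw [hx, mul_pow, mul_pow, div_pow, ← pow_mul]
          rw [show 2 * τ * 4 = 8 * τ by ring]
          ring
        exact le_of_pow_le_pow_left₀ (by norm_num) (by positivity) p6)
    refine h1.trans (le_of_eq ?_)
    ring
  have h2 := (g3_union N (2 ^ τ) (fun t n => small va ((2 : ℤ) ^ (va - 2 * τ))
      ((t : ℤ) * dqua c d e f n))).trans (sum_le_sum hone)
  rw [sum_const, Nat.card_Icc, nsmul_eq_mul] at h2
  rw [← hN]
  have hr : ((2 ^ τ + 1 - 1 : ℕ) : ℝ) = 2 ^ τ := by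
    rw [Nat.add_sub_cancel]; push_cast; ring
  rw [hr] at h2
  have h3 := mul_le_mul_of_nonneg_right h2 (by positivity : (0 : ℝ) ≤ 2 ^ τ)
  refine h3.trans (le_of_eq ?_)
  rw [hNr]
  have h4 : (2 : ℝ) ^ τ * 2 ^ τ * (1 / 2) ^ (2 * τ) = 1 := by
    rw [← pow_add, ← two_mul, ← mul_pow]; norm_num
  linear_combination (9 * (2 : ℝ) ^ a) * h4

end Pool.Agent.H20.T4
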